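import Pool.Agent.P.MP_b60056_nt.AA.All

namespace Pool.Agent.Results.MP_b60056_nt.AlmostAll

theorem result :
    ∃ C : ℝ, ∀ X : ℕ, 2 ≤ X →
      (Set.ncard {m : ℕ | 2 ≤ m ∧ m ≤ X ∧ ¬ ∃ k : ℕ, 0 < k ∧
        (k : ℝ) ≤ Real.exp (Real.sqrt (Real.log m) * Real.log (Real.log m) ^ 6) ∧
        ∃ i ∈ Finset.range (k + 1),
          (m + i) ∣ ∏ j ∈ (Finset.range (k + 1)).erase i, (m + j)} : ℝ) ≤
      C * X * Real.exp (-(Real.log X) ^ (1 / 12 : ℝ)) :=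
  Pool.Agent.P.MP_b60056_nt.AA.all_final

end Pool.Agent.Results.MP_b60056_nt.AlmostAll
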