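import Mathlib
import Pool.Agent.P.MP_b60056_nt.Three

namespace Pool.Agent.Results.MP_b60056_nt.SevenEighteenths

open Pool.Agent.P.MP_b60056_nt

theorem block_of_three (m k c a b : ℕ) (hc : 0 < c) (hca : c < a) (hab : a ≤ b)
    (h1 : m ≤ c * a * b) (h2 : c * a * b + 2 * b ≤ m + k) :
    ∃ i ∈ Finset.range (k + 1),
      (m + i) ∣ ∏ j ∈ (Finset.range (k + 1)).erase i, (m + j) := by
  obtain ⟨i, hi⟩ : ∃ i, c * a * b = m + i := ⟨c * a * b - m, by omega⟩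
  refine ⟨i, by simp only [Finset.mem_range]; omega, ?_⟩
  have hsub : ({i + c, i + a, i + 2 * b} : Finset ℕ) ⊆ (Finset.range (k + 1)).erase i := by
    intro x hx
    simp only [Finset.mem_insert, Finset.mem_singleton] at hx
    simp only [Finset.mem_erase, Finset.mem_range]
    omega
  refine dvd_trans ?_ (Finset.prod_dvd_prod_of_subset _ _ (fun j => m + j) hsub)
  rw [Finset.prod_insert (by simp only [Finset.mem_insert, Finset.mem_singleton]; omega),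
    Finset.prod_insert (by simp only [Finset.mem_singleton]; omega), Finset.prod_singleton]
  have e1 : m + (i + c) = c * (a * b + 1) := by rw [← add_assoc, ← hi]; ring
  have e2 : m + (i + a) = a * (c * b + 1) := by rw [← add_assoc, ← hi]; ring
  have e3 : m + (i + 2 * b) = b * (c * a + 2) := by rw [← add_assoc, ← hi]; ring
  rw [e1, e2, e3, ← hi]
  exact ⟨(a * b + 1) * (c * b + 1) * (c * a + 2), by ring⟩

theorem result : ∃ K : ℝ, ∀ m : ℕ, 2 ≤ m → ∃ k : ℕ, 0 < k ∧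
    (k : ℝ) ≤ K * (m : ℝ) ^ ((7 : ℝ) / 18) ∧
    ∃ i ∈ Finset.range (k + 1),
      (m + i) ∣ ∏ j ∈ (Finset.range (k + 1)).erase i, (m + j) := by
  refine ⟨72 ^ 36, fun m hm => ?_⟩
  have hm0 : (0 : ℝ) < m := by exact_mod_cast (by omega : 0 < m)
  have hm1 : (1 : ℝ) ≤ m := by exact_mod_cast (by omega : 1 ≤ m)
  have hpow1 : (1 : ℝ) ≤ (m : ℝ) ^ ((7 : ℝ) / 18) := Real.one_le_rpow hm1 (by norm_num)
  by_cases hsmall : m ≤ 72 ^ 36
  · refine ⟨m, by omega, ?_, 0, by simp, ?_⟩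
    · have : (m : ℝ) ≤ 72 ^ 36 := by exact_mod_cast hsmall
      calc (m : ℝ) ≤ 72 ^ 36 * 1 := by linarith
        _ ≤ 72 ^ 36 * (m : ℝ) ^ ((7 : ℝ) / 18) :=
          mul_le_mul_of_nonneg_left hpow1 (by positivity)
    · refine dvd_trans ?_ (Finset.dvd_prod_of_mem (fun j => m + j)
        (a := m) (by simp only [Finset.mem_erase, Finset.mem_range]; omega))
      exact ⟨2, by ring⟩
  push Not at hsmall
  set R : ℝ := (m : ℝ) ^ ((1 : ℝ) / 36) with hR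
  have hR0 : 0 < R := Real.rpow_pos_of_pos hm0 _
  have hR36 : R ^ 36 = m := by
    rw [hR, ← Real.rpow_natCast, ← Real.rpow_mul hm0.le]; norm_num
  have hR14 : R ^ 14 = (m : ℝ) ^ ((7 : ℝ) / 18) := by
    rw [hR, ← Real.rpow_natCast, ← Real.rpow_mul hm0.le]; norm_num
  have hR72 : 72 ≤ R := by
    by_contra h
    push Not at h
    have h1 : R ^ 36 ≤ 72 ^ 36 := pow_le_pow_left₀ hR0.le h.le 36
    have h2 : ((72 ^ 36 : ℕ) : ℝ) < m := by exact_mod_cast hsmall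
    rw [hR36] at h1
    push_cast at h2
    linarith
  set q : ℕ := ⌈R⌉₊ with hq
  have hq1 : R ≤ q := Nat.le_ceil _
  have hq2 : (q : ℝ) < R + 1 := Nat.ceil_lt_add_one hR0.le
  have hq72 : (72 : ℝ) ≤ q := by linarith
  have hq0 : (0 : ℝ) < q := by linarith
  have hq5 : 5 ≤ q := by
    have : (5 : ℝ) ≤ q := by linarith
    exact_mod_cast this
  have hm2 : (m : ℝ) ≤ (q : ℝ) ^ 36 := by rw [← hR36]; exact pow_le_pow_left₀ hR0.le hq1 36
  have hm3 : (q : ℝ) ^ 36 / 2 ≤ m := by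
    have h1 : (q : ℝ) * (1 + -(1 / q)) ≤ R := by
      have : (q : ℝ) * (1 + -(1 / q)) = q - 1 := by field_simp; ring
      linarith
    have hq' : 1 / (q : ℝ) ≤ 1 / 72 := one_div_le_one_div_of_le (by norm_num) hq72
    have h2 : 1 + (36 : ℕ) * -(1 / (q : ℝ)) ≤ (1 + -(1 / (q : ℝ))) ^ 36 :=
      one_add_mul_le_pow (by linarith) 36
    have h3 : ((q : ℝ) * (1 + -(1 / q))) ^ 36 ≤ R ^ 36 :=
      pow_le_pow_left₀ (mul_nonneg hq0.le (by linarith)) h1 36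
    rw [mul_pow, hR36] at h3
    have h4 : (1 : ℝ) / 2 ≤ (1 + -(1 / (q : ℝ))) ^ 36 := by
      push_cast at h2; linarith
    have h5 : (q : ℝ) ^ 36 * (1 / 2) ≤ (q : ℝ) ^ 36 * (1 + -(1 / (q : ℝ))) ^ 36 :=
      mul_le_mul_of_nonneg_left h4 (by positivity)
    linarith
  set C : ℝ := (9 / 64 * (q : ℝ) ^ 4 * m) ^ ((1 : ℝ) / 5) with hC
  have hC0 : 0 ≤ C := Real.rpow_nonneg (by positivity) _
  have hC5 : C ^ 5 = 9 / 64 * (q : ℝ) ^ 4 * m := by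
    rw [hC, ← Real.rpow_natCast, ← Real.rpow_mul (by positivity)]; norm_num
  have hq4 : (0 : ℝ) < (q : ℝ) ^ 4 := by positivity
  have hq40 : (0 : ℝ) < (q : ℝ) ^ 40 := by positivity
  have hC1 : (q : ℝ) ^ 8 / 2 ≤ C := by
    apply le_of_pow_le_pow_left₀ (n := 5) (by norm_num) hC0
    rw [hC5]
    have h1 : 9 / 64 * (q : ℝ) ^ 4 * ((q : ℝ) ^ 36 / 2) ≤ 9 / 64 * (q : ℝ) ^ 4 * m :=
      mul_le_mul_of_nonneg_left hm3 (by positivity)
    have h2 : 9 / 64 * (q : ℝ) ^ 4 * ((q : ℝ) ^ 36 / 2) = 9 / 128 * (q : ℝ) ^ 40 := by ring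
    have h3 : ((q : ℝ) ^ 8 / 2) ^ 5 = 1 / 32 * (q : ℝ) ^ 40 := by ring
    linarith
  have hC2 : C ≤ (q : ℝ) ^ 8 := by
    apply le_of_pow_le_pow_left₀ (n := 5) (by norm_num) (by positivity)
    rw [hC5]
    have h1 : 9 / 64 * (q : ℝ) ^ 4 * m ≤ 9 / 64 * (q : ℝ) ^ 4 * (q : ℝ) ^ 36 :=
      mul_le_mul_of_nonneg_left hm2 (by positivity)
    have h2 : 9 / 64 * (q : ℝ) ^ 4 * (q : ℝ) ^ 36 = 9 / 64 * (q : ℝ) ^ 40 := by ring
    have h3 : ((q : ℝ) ^ 8) ^ 5 = (q : ℝ) ^ 40 := by ring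
    linarith
  have hmC : (m : ℝ) = 64 * C ^ 5 / (9 * (q : ℝ) ^ 4) := by
    rw [hC5]; field_simp
  obtain ⟨c, a, b, h1, h2, h3, h4, h5, h6⟩ := three_factors q hq5 C hC1 hC2 m hmC
  refine ⟨322 * q ^ 14, by positivity, ?_, block_of_three m _ c a b h1 h2 h3 h5 (by omega)⟩
  have h7 : (q : ℝ) ^ 14 ≤ (2 * R) ^ 14 := pow_le_pow_left₀ hq0.le (by linarith) 14
  rw [mul_pow, hR14] at h7
  have h8 : (0 : ℝ) ≤ (m : ℝ) ^ ((7 : ℝ) / 18) := by linarith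
  push_cast
  calc 322 * (q : ℝ) ^ 14 ≤ 322 * (2 ^ 14 * (m : ℝ) ^ ((7 : ℝ) / 18)) := by linarith
    _ = (322 * 2 ^ 14) * (m : ℝ) ^ ((7 : ℝ) / 18) := by ring
    _ ≤ 72 ^ 36 * (m : ℝ) ^ ((7 : ℝ) / 18) :=
      mul_le_mul_of_nonneg_right (by norm_num) h8

end Pool.Agent.Results.MP_b60056_nt.SevenEighteenths
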